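import Mathlib
import Pool.Agent.H2.Env

/-!
# Two linear dependences that cannot be realised in one finite-dimensional representation
-/

set_option autoImplicit false

namespace Pool.Agent.Results.MP_81db1e_al.TwoFamilies

universe u v w

open Polynomial Pool.Agent.H2.Env

/-- **Answer to Q1: no.**  For every field `k` of characteristic zero there are a (commutative)
`k`-algebra `R` and two pairs `U 0`, `U 1` of elements of `R`, each of which is linearly dependent
in some finite-dimensional representation of `R`, such that in every finite-dimensional
representation `(F, A)` of `R` (even with `A` and the homomorphism non-unital) at least one of the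
two pairs is linearly independent over `F`. -/
theorem result (k : Type u) [Field k] [CharZero k] :
    ∃ (R : Type u) (_ : CommRing R) (_ : Algebra k R) (U : Fin 2 → Fin 2 → R),
      (∀ j : Fin 2, ∃ (F' : Type u) (_ : Field F') (_ : Algebra k F') (A' : Type u) (_ : Ring A')
        (_ : Algebra F' A') (_ : Algebra k A') (_ : IsScalarTower k F' A') (φ : R →ₐ[k] A'),
        FiniteDimensional F' A' ∧ Function.Injective φ ∧
          ¬ LinearIndependent F' (fun i => φ (U j i))) ∧
      ∀ (F : Type v) [Field F] [Algebra k F] (A : Type w) [NonUnitalRing A] [Module F A]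
        [IsScalarTower F A A] [SMulCommClass F A A] [Module k A] [IsScalarTower k F A],
        FiniteDimensional F A → ∀ φ : R →ₙₐ[k] A, Function.Injective φ →
          ∃ j : Fin 2, LinearIndependent F (fun i => φ (U j i)) := by
  refine ⟨k[X] × k[X], inferInstance, inferInstance, ![![(X, X), (1, 1)], ![(X, X + 1), (1, 1)]],
    ?_, ?_⟩
  · have main : ∀ c : k, ¬ LinearIndependent (RatFunc k)
        (fun i => rep k c ((![(X, X + C c), (1, 1)] : Fin 2 → k[X] × k[X]) i)) := by
      intro c h
      have h1 : (fun i => rep k c ((![(X, X + C c), (1, 1)] : Fin 2 → k[X] × k[X]) i)) =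
          ![rep k c (X, X + C c), rep k c (1, 1)] := by
        funext i; fin_cases i <;> rfl
      rw [h1, LinearIndependent.pair_iff] at h
      have h2 := h (-1) (algebraMap k[X] (RatFunc k) X) (by
        rw [rep_apply, rep_apply]
        ext <;> simp)
      exact absurd h2.1 (by norm_num)
    intro j
    fin_cases j
    · refine ⟨RatFunc k, inferInstance, inferInstance, RatFunc k × RatFunc k, inferInstance,
        inferInstance, inferInstance, inferInstance, rep k 0, inferInstance, rep_injective k 0, ?_⟩
      have := main 0
      simpa using this
    · refine ⟨RatFunc k, inferInstance, inferInstance, RatFunc k × RatFunc k, inferInstance,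
        inferInstance, inferInstance, inferInstance, rep k 1, inferInstance, rep_injective k 1, ?_⟩
      have := main 1
      simpa using this
  · intro F _ _ A _ _ _ _ _ _ _ φ hφ
    rcases key (F := F) φ hφ with h | h
    · refine ⟨0, ?_⟩
      have h1 : (fun i => φ ((![![(X, X), (1, 1)], ![(X, X + 1), (1, 1)]] :
          Fin 2 → Fin 2 → k[X] × k[X]) 0 i)) = ![φ (X, X), φ (1, 1)] := by
        funext i; fin_cases i <;> rfl
      rw [h1]; exact h
    · refine ⟨1, ?_⟩
      have h1 : (fun i => φ ((![![(X, X), (1, 1)], ![(X, X + 1), (1, 1)]] :
          Fin 2 → Fin 2 → k[X] × k[X]) 1 i)) = ![φ (X, X + 1), φ (1, 1)] := by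
        funext i; fin_cases i <;> rfl
      rw [h1]; exact h

end Pool.Agent.Results.MP_81db1e_al.TwoFamilies
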